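import Mathlib
import Pool.Agent.V1173.Bidisc

/-!
# The coefficient bound `1 - 1/M` fails on `S⁰(U², M)` for every `M > 1`
-/

set_option autoImplicit false

namespace Pool.Agent.Results.MP_5d6127_an.ShearCounterexample

open Set Metric Filter Topology Pool.Agent.V1173.Bidisc

/-- The coefficient `a¹₀₂ = (1/2) ∂²f₁/∂z₂² (0)`. -/
noncomputable def a102 (f : ℂ × ℂ → ℂ × ℂ) : ℂ :=
  (1 / 2) * iteratedDeriv 2 (fun w : ℂ => (f (0, w)).1) 0

theorem a102_shear (a : ℝ) : a102 (shear a) = a := by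
  have h : (fun w : ℂ => (shear a (0, w)).1) = fun w => (a : ℂ) * w ^ 2 := by
    funext w
    simp [shear]
  rw [a102, h, iteratedDeriv_succ, iteratedDeriv_one]
  have h1 : deriv (fun w : ℂ => (a : ℂ) * w ^ 2) = fun w => (a : ℂ) * (2 * w) := by
    funext w
    simp
  rw [h1]
  have h2 : HasDerivAt (fun w : ℂ => (a : ℂ) * (2 * w)) ((a : ℂ) * (2 * 1)) 0 :=
    ((hasDerivAt_id (0 : ℂ)).const_mul 2).const_mul (a : ℂ)
  rw [h2.deriv]
  ring

theorem result : ∀ M : ℝ, 1 < M → ∃ f ∈ S0M M, 1 - 1 / M < ‖a102 f‖ := by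
  intro M hM
  have hM0 : 0 < M := by linarith
  have ha0 : 0 ≤ min 1 (M - 1) := le_min zero_le_one (by linarith)
  have habs : |min 1 (M - 1)| = min 1 (M - 1) := abs_of_nonneg ha0
  refine ⟨shear (min 1 (M - 1)), shear_mem_S0M ?_ ?_, ?_⟩
  · rw [habs]; exact min_le_left _ _
  · rw [habs]; linarith [min_le_right 1 (M - 1)]
  · rw [a102_shear, Complex.norm_real, Real.norm_eq_abs, habs, lt_min_iff]
    constructor
    · have : 0 < 1 / M := by positivity
      linarith
    · have h1 : 1 - 1 / M = (M - 1) / M := by field_simp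
      rw [h1, div_lt_iff₀ hM0]
      nlinarith

end Pool.Agent.Results.MP_5d6127_an.ShearCounterexample
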